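import Mathlib

set_option autoImplicit false

namespace Pool.Agent.LibTri

open Finset

lemma harmonic_le_prod (N : ℕ) :
    ∑ m ∈ Finset.Icc 1 (N - 1), ((m:ℝ))⁻¹ ≤ ∏ p ∈ N.primesBelow, (1 - ((p:ℝ))⁻¹)⁻¹ := by
  let f : ℕ →* ℝ :=
    { toFun := fun n => ((n:ℝ))⁻¹
      map_one' := by simp
      map_mul' := fun a b => by push_cast; rw [mul_inv] }
  have hf : ∀ {p : ℕ}, p.Prime → ‖f p‖ < 1 := by
    intro p hp
    have h1 : (1:ℝ) < p := by exact_mod_cast hp.one_lt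
    show ‖((p:ℝ))⁻¹‖ < 1
    rw [norm_inv, Real.norm_natCast]
    exact inv_lt_one_of_one_lt₀ h1
  obtain ⟨hsum, hhas⟩ :=
    EulerProduct.summable_and_hasSum_smoothNumbers_prod_primesBelow_geometric (f := f) hf N
  have hmem : ∀ m ∈ Finset.Icc 1 (N - 1), m ∈ N.smoothNumbers := by
    intro m hm
    rw [Finset.mem_Icc] at hm
    rw [Nat.mem_smoothNumbers]
    refine ⟨by omega, ?_⟩
    intro p hp
    have := Nat.le_of_mem_primeFactorsList hp
    omega
  have hle : ∑ m ∈ (Finset.Icc 1 (N - 1)).attach, f (m : ℕ) ≤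
      ∏ p ∈ N.primesBelow, (1 - f p)⁻¹ := by
    let e : {x // x ∈ Finset.Icc 1 (N - 1)} ↪ N.smoothNumbers :=
      ⟨fun m => ⟨m.1, hmem m.1 m.2⟩, fun a b h => by
        have := congrArg Subtype.val h
        exact Subtype.ext this⟩
    have h2 := sum_le_hasSum ((Finset.Icc 1 (N - 1)).attach.map e) (fun m _ => ?_) hhas
    · rw [Finset.sum_map] at h2
      exact h2
    · show (0:ℝ) ≤ ((m:ℕ):ℝ)⁻¹
      positivity
  rw [Finset.sum_attach (Finset.Icc 1 (N - 1)) (fun m => f m)] at hle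
  exact hle

lemma log_le_prod (N : ℕ) (hN : 1 ≤ N) :
    Real.log N ≤ ∏ p ∈ N.primesBelow, (1 - ((p:ℝ))⁻¹)⁻¹ := by
  refine le_trans ?_ (harmonic_le_prod N)
  have h := log_add_one_le_harmonic (N - 1)
  have h2 : ((N - 1 : ℕ) : ℝ) + 1 = N := by
    have : N - 1 + 1 = N := by omega
    exact_mod_cast this
  have h3 : ((N - 1 + 1 : ℕ) : ℝ) = N := by
    have : N - 1 + 1 = N := by omega
    exact_mod_cast this
  have h4 : ((harmonic (N - 1) : ℚ) : ℝ) = ∑ m ∈ Finset.Icc 1 (N - 1), ((m:ℝ))⁻¹ := by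
    rw [harmonic_eq_sum_Icc]
    push_cast
    rfl
  rw [h4, h3] at h
  exact h

lemma tele (N : ℕ) (hN : 3 ≤ N) : ∏ m ∈ Finset.Ico 3 N, (1 - 4 / (m:ℝ) ^ 2) =
    (N:ℝ) * (N + 1) / (6 * (N - 2) * (N - 1)) := by
  induction N, hN using Nat.le_induction with
  | base => norm_num
  | succ n hn ih =>
    rw [Finset.prod_Ico_succ_top hn, ih]
    have h3 : (3:ℝ) ≤ n := by exact_mod_cast hn
    have h1 : (n:ℝ) - 2 ≠ 0 := by intro h; linarith
    have h2 : (n:ℝ) - 1 ≠ 0 := by intro h; linarith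
    have h4 : (n:ℝ) ≠ 0 := by intro h; linarith
    push_cast
    have h5 : (n:ℝ) + 1 - 2 ≠ 0 := by intro h; linarith
    have h6 : (n:ℝ) + 1 - 1 ≠ 0 := by intro h; linarith
    field_simp
    ring

lemma tele_ge (N : ℕ) (hN : 3 ≤ N) : (1:ℝ) / 6 ≤ ∏ m ∈ Finset.Ico 3 N, (1 - 4 / (m:ℝ) ^ 2) := by
  rw [tele N hN]
  have h3 : (3:ℝ) ≤ N := by exact_mod_cast hN
  rw [div_le_div_iff₀ (by norm_num) (by nlinarith)]
  nlinarith

/-- The odd primes below `N`. -/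
def oddPrimes (N : ℕ) : Finset ℕ := N.primesBelow.erase 2

lemma mem_oddPrimes {N p : ℕ} : p ∈ oddPrimes N ↔ p ≠ 2 ∧ p < N ∧ p.Prime := by
  simp [oddPrimes, Nat.mem_primesBelow]

lemma oddPrimes_prod_le (N : ℕ) : ∏ p ∈ oddPrimes N, p ≤ 4 ^ N := by
  refine le_trans ?_ (primorial_le_four_pow N)
  unfold primorial
  apply Finset.prod_le_prod_of_subset_of_one_le'
  · intro p hp
    rw [mem_oddPrimes] at hp
    rw [Finset.mem_filter, Finset.mem_range]
    exact ⟨by omega, hp.2.2⟩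
  · intro p hp _
    rw [Finset.mem_filter] at hp
    exact hp.2.one_le

lemma F_ge (N : ℕ) (hN : 3 ≤ N) :
    Real.log N / 12 ≤ ∏ p ∈ oddPrimes N, (1 + 1 / (p:ℝ) - 1 / (p:ℝ) ^ 2) := by
  classical
  have h1 : ∏ p ∈ oddPrimes N, ((1 - ((p:ℝ))⁻¹)⁻¹ * (1 - 4 / (p:ℝ) ^ 2)) ≤
      ∏ p ∈ oddPrimes N, (1 + 1 / (p:ℝ) - 1 / (p:ℝ) ^ 2) := by
    apply Finset.prod_le_prod
    · intro p hp
      rw [mem_oddPrimes] at hp
      have hp3 : 3 ≤ p := by
        have := hp.2.2.two_le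
        omega
      have hp3' : (3:ℝ) ≤ p := by exact_mod_cast hp3
      apply mul_nonneg
      · apply inv_nonneg.mpr
        have : ((p:ℝ))⁻¹ ≤ 1 := inv_le_one_of_one_le₀ (by linarith)
        linarith
      · have : 4 / (p:ℝ) ^ 2 ≤ 1 := by
          rw [div_le_one (by positivity)]
          nlinarith
        linarith
    · intro p hp
      rw [mem_oddPrimes] at hp
      have hp3 : 3 ≤ p := by
        have := hp.2.2.two_le
        omega
      have hp3' : (3:ℝ) ≤ p := by exact_mod_cast hp3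
      have hp0 : (0:ℝ) < p := by linarith
      have hpm : (0:ℝ) < 1 - ((p:ℝ))⁻¹ := by
        have : ((p:ℝ))⁻¹ < 1 := inv_lt_one_of_one_lt₀ (by linarith)
        linarith
      rw [inv_mul_le_iff₀ hpm]
      have e : (1 - ((p:ℝ))⁻¹) * (1 + 1 / (p:ℝ) - 1 / (p:ℝ) ^ 2) =
          1 - 2 / (p:ℝ) ^ 2 + 1 / (p:ℝ) ^ 3 := by
        field_simp
        ring
      rw [e]
      have : (0:ℝ) ≤ 1 / (p:ℝ) ^ 3 := by positivity
      have h4 : 4 / (p:ℝ) ^ 2 = 2 / (p:ℝ) ^ 2 + 2 / (p:ℝ) ^ 2 := by ring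
      have h5 : (0:ℝ) ≤ 2 / (p:ℝ) ^ 2 := by positivity
      linarith
  refine le_trans ?_ h1
  rw [Finset.prod_mul_distrib]
  have h2 : (2:ℕ) ∈ N.primesBelow := by
    rw [Nat.mem_primesBelow]
    exact ⟨by omega, Nat.prime_two⟩
  have h3 : Real.log N / 2 ≤ ∏ p ∈ oddPrimes N, (1 - ((p:ℝ))⁻¹)⁻¹ := by
    have := log_le_prod N (by omega)
    rw [← Finset.mul_prod_erase _ _ h2] at this
    have e : (1 - (((2:ℕ):ℝ))⁻¹)⁻¹ = (2:ℝ) := by norm_num
    rw [e] at this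
    unfold oddPrimes
    linarith
  have h4 : (1:ℝ) / 6 ≤ ∏ p ∈ oddPrimes N, (1 - 4 / (p:ℝ) ^ 2) := by
    refine (tele_ge N hN).trans ?_
    have hsub : oddPrimes N ⊆ Finset.Ico 3 N := by
      intro p hp
      rw [mem_oddPrimes] at hp
      rw [Finset.mem_Ico]
      have := hp.2.2.two_le
      omega
    rw [← Finset.prod_sdiff hsub]
    have hnn : ∀ m ∈ Finset.Ico 3 N, 0 ≤ (1 - 4 / (m:ℝ) ^ 2) ∧ (1 - 4 / (m:ℝ) ^ 2) ≤ 1 := by
      intro m hm
      rw [Finset.mem_Ico] at hm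
      have hm3 : (3:ℝ) ≤ m := by exact_mod_cast hm.1
      constructor
      · have : 4 / (m:ℝ) ^ 2 ≤ 1 := by
          rw [div_le_one (by positivity)]
          nlinarith
        linarith
      · have : 0 ≤ 4 / (m:ℝ) ^ 2 := by positivity
        linarith
    have hle : ∏ m ∈ Finset.Ico 3 N \ oddPrimes N, (1 - 4 / (m:ℝ) ^ 2) ≤ 1 := by
      apply Finset.prod_le_one
      · intro m hm; exact (hnn m (Finset.sdiff_subset hm)).1
      · intro m hm; exact (hnn m (Finset.sdiff_subset hm)).2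
    have hpos : 0 ≤ ∏ m ∈ oddPrimes N, (1 - 4 / (m:ℝ) ^ 2) := by
      apply Finset.prod_nonneg
      intro m hm; exact (hnn m (hsub hm)).1
    calc _ ≤ 1 * ∏ m ∈ oddPrimes N, (1 - 4 / (m:ℝ) ^ 2) :=
          mul_le_mul_of_nonneg_right hle hpos
      _ = _ := one_mul _
  have hlog : 0 ≤ Real.log N := Real.log_natCast_nonneg N
  calc Real.log N / 12 = (Real.log N / 2) * (1 / 6) := by ring
    _ ≤ _ := by
      apply mul_le_mul h3 h4 (by norm_num)
      linarith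

lemma G_ge (N : ℕ) (hN : 3 ≤ N) :
    (Real.log N / 12) ^ 2 ≤ ∏ p ∈ oddPrimes N, (1 + 2 / (p:ℝ) - 1 / (p:ℝ) ^ 2) := by
  have h1 := F_ge N hN
  have hlog : 0 ≤ Real.log N := Real.log_natCast_nonneg N
  refine (pow_le_pow_left₀ (by positivity) h1 2).trans ?_
  rw [← Finset.prod_pow]
  apply Finset.prod_le_prod
  · intro p _; positivity
  · intro p hp
    rw [mem_oddPrimes] at hp
    have hp1 : (1:ℝ) ≤ p := by exact_mod_cast hp.2.2.one_le
    have hp0 : (0:ℝ) < p := by linarith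
    set x := 1 / (p:ℝ) with hx
    have hx0 : 0 ≤ x := by positivity
    have hx1 : x ≤ 1 := by rw [hx, div_le_one hp0]; exact hp1
    have e1 : 1 / (p:ℝ) ^ 2 = x ^ 2 := by rw [hx]; ring
    have e2 : 2 / (p:ℝ) = 2 * x := by rw [hx]; ring
    rw [e1, e2]
    have : 0 ≤ x ^ 3 * (2 - x) := by
      apply mul_nonneg (by positivity)
      linarith
    nlinarith

end Pool.Agent.LibTri
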