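import Mathlib

set_option autoImplicit false

namespace Pool.Agent.LibTri

open Finset

/-- Zeros of the sum of four squares over a finite commutative ring. -/
def sol (R : Type*) [CommRing R] [Fintype R] [DecidableEq R] : Finset (R × R × R × R) :=
  Finset.univ.filter (fun x => x.1 ^ 2 + x.2.1 ^ 2 + x.2.2.1 ^ 2 + x.2.2.2 ^ 2 = 0)

lemma mem_sol {R : Type*} [CommRing R] [Fintype R] [DecidableEq R] (x : R × R × R × R) :
    x ∈ sol R ↔ x.1 ^ 2 + x.2.1 ^ 2 + x.2.2.1 ^ 2 + x.2.2.2 ^ 2 = 0 := by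
  simp [sol]

lemma sol_card_le_of_equiv {R R' : Type*} [CommRing R] [Fintype R] [DecidableEq R]
    [CommRing R'] [Fintype R'] [DecidableEq R'] (e : R ≃+* R') :
    (sol R).card ≤ (sol R').card := by
  refine Finset.card_le_card_of_injOn
    (fun x => (e x.1, e x.2.1, e x.2.2.1, e x.2.2.2)) ?_ ?_
  · intro x hx
    rw [Finset.mem_coe, mem_sol] at hx ⊢
    simp only [← map_pow, ← map_add]
    rw [hx, map_zero]
  · intro x _ y _ h
    simp only [Prod.mk.injEq, EmbeddingLike.apply_eq_iff_eq] at h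
    obtain ⟨h1, h2, h3, h4⟩ := h
    ext <;> assumption

lemma sol_card_prod {R R' : Type*} [CommRing R] [Fintype R] [DecidableEq R]
    [CommRing R'] [Fintype R'] [DecidableEq R'] :
    (sol R).card * (sol R').card ≤ (sol (R × R')).card := by
  rw [← Finset.card_product]
  refine Finset.card_le_card_of_injOn
    (fun z => ((z.1.1, z.2.1), (z.1.2.1, z.2.2.1), (z.1.2.2.1, z.2.2.2.1),
      (z.1.2.2.2, z.2.2.2.2))) ?_ ?_
  · intro z hz
    rw [Finset.mem_coe, Finset.mem_product, mem_sol, mem_sol] at hz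
    rw [Finset.mem_coe, mem_sol]
    ext
    · simpa using hz.1
    · simpa using hz.2
  · intro x _ y _ h
    simp only [Prod.mk.injEq] at h
    obtain ⟨⟨h1, h1'⟩, ⟨h2, h2'⟩, ⟨h3, h3'⟩, h4, h4'⟩ := h
    ext <;> assumption

/-- Over a field with p elements, p odd, there are at least `p^3 + p^2 - p` zeros. -/
lemma sol_card_prime (p : ℕ) [hp : Fact p.Prime] (hodd : p ≠ 2) :
    p ^ 3 + p ^ 2 ≤ (sol (ZMod p)).card + p := by
  classical
  obtain ⟨α, β, hαβ⟩ := ZMod.sq_add_sq p (-1)
  have h2 : (2 : ZMod p) ≠ 0 := by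
    have : ((2:ℕ) : ZMod p) ≠ 0 := by
      rw [Ne, ZMod.natCast_eq_zero_iff]
      intro hd
      have := (Nat.prime_dvd_prime_iff_eq hp.out Nat.prime_two).mp hd
      exact hodd this
    simpa using this
  obtain ⟨i, hi⟩ : ∃ i : ZMod p, 2 * i = 1 := ⟨2⁻¹, mul_inv_cancel₀ h2⟩
  -- A: nonzero first row and second row a multiple; B: first row zero
  let A : Finset ((ZMod p × ZMod p) × ZMod p) :=
    (Finset.univ.filter (fun v : ZMod p × ZMod p => v ≠ 0)) ×ˢ Finset.univ
  let B : Finset (ZMod p × ZMod p) := Finset.univ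
  let s : ZMod p × ZMod p × ZMod p × ZMod p → ZMod p := fun m => (m.1 - m.2.2.2) * i
  let t : ZMod p × ZMod p × ZMod p × ZMod p → ZMod p := fun m => (m.2.1 + m.2.2.1) * i
  let φ : ZMod p × ZMod p × ZMod p × ZMod p → ZMod p × ZMod p × ZMod p × ZMod p := fun m =>
    ((m.1 + m.2.2.2) * i, -(s m * α + t m * β), (m.2.1 - m.2.2.1) * i, β * s m - α * t m)
  have hφ_sq : ∀ m, (φ m).1 ^ 2 + (φ m).2.1 ^ 2 + (φ m).2.2.1 ^ 2 + (φ m).2.2.2 ^ 2 =
      m.1 * m.2.2.2 - m.2.1 * m.2.2.1 := by
    intro m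
    simp only [φ, s, t]
    linear_combination (((m.1 - m.2.2.2) * i) ^ 2 + ((m.2.1 + m.2.2.1) * i) ^ 2) * hαβ +
      (2 * i + 1) * (m.1 * m.2.2.2 - m.2.1 * m.2.2.1) * hi
  have hφ_inj : Function.Injective φ := by
    intro m m' h
    simp only [φ, Prod.mk.injEq] at h
    obtain ⟨e1, e2, e3, e4⟩ := h
    have hs : s m = s m' := by
      linear_combination α * e2 - β * e4 + (s m - s m') * hαβ
    have ht : t m = t m' := by
      linear_combination β * e2 + α * e4 + (t m - t m') * hαβ
    simp only [s, t] at hs ht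
    have c1 : m.1 = m'.1 := by
      linear_combination e1 + hs - (m.1 - m'.1) * hi
    have c2 : m.2.2.2 = m'.2.2.2 := by
      linear_combination e1 - hs - (m.2.2.2 - m'.2.2.2) * hi
    have c3 : m.2.1 = m'.2.1 := by
      linear_combination e3 + ht - (m.2.1 - m'.2.1) * hi
    have c4 : m.2.2.1 = m'.2.2.1 := by
      linear_combination ht - e3 - (m.2.2.1 - m'.2.2.1) * hi
    ext <;> assumption
  -- the singular matrices
  let ψA : (ZMod p × ZMod p) × ZMod p → ZMod p × ZMod p × ZMod p × ZMod p := fun z => (z.1.1, z.1.2, z.2 * z.1.1, z.2 * z.1.2)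
  let ψB : ZMod p × ZMod p → ZMod p × ZMod p × ZMod p × ZMod p := fun z => (0, 0, z.1, z.2)
  have hψA : Set.InjOn ψA A := by
    intro z hz z' _ h
    simp only [ψA, Prod.mk.injEq] at h
    obtain ⟨e1, e2, e3, e4⟩ := h
    have hz1 : z.1 = z'.1 := Prod.ext e1 e2
    have hzne : z.1 ≠ 0 := by
      have := Finset.mem_coe.mp hz
      simp only [A, Finset.mem_product, Finset.mem_filter] at this
      exact this.1.2
    have hz2 : z.2 = z'.2 := by
      rw [← e1] at e3
      rw [← e2] at e4
      by_cases h0 : z.1.1 = 0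
      · have h0' : z.1.2 ≠ 0 := fun h => hzne (Prod.ext h0 h)
        exact mul_right_cancel₀ h0' e4
      · exact mul_right_cancel₀ h0 e3
    exact Prod.ext hz1 hz2
  have hψB : Function.Injective ψB := by
    intro z z' h
    simp only [ψB, Prod.mk.injEq] at h
    exact Prod.ext h.2.2.1 h.2.2.2
  have hdisj : Disjoint (A.image ψA) (B.image ψB) := by
    rw [Finset.disjoint_left]
    intro x hx hx'
    rw [Finset.mem_image] at hx hx'
    obtain ⟨z, hz, rfl⟩ := hx
    obtain ⟨z', _, h⟩ := hx'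
    simp only [ψA, ψB, Prod.mk.injEq] at h
    simp only [A, Finset.mem_product, Finset.mem_filter] at hz
    exact hz.1.2 (Prod.ext h.1.symm h.2.1.symm)
  have hsub : ((A.image ψA) ∪ (B.image ψB)).image φ ⊆ sol (ZMod p) := by
    intro x hx
    rw [Finset.mem_image] at hx
    obtain ⟨m, hm, rfl⟩ := hx
    rw [mem_sol, hφ_sq]
    rw [Finset.mem_union, Finset.mem_image, Finset.mem_image] at hm
    rcases hm with ⟨z, _, rfl⟩ | ⟨z, _, rfl⟩
    · simp only [ψA]; ring
    · simp only [ψB]; ring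
  have hcard := Finset.card_le_card hsub
  rw [Finset.card_image_of_injective _ hφ_inj, Finset.card_union_of_disjoint hdisj,
    Finset.card_image_of_injOn hψA, Finset.card_image_of_injective _ hψB] at hcard
  have hA : A.card + p = p ^ 2 * p := by
    have h1 : (Finset.univ.filter (fun v : ZMod p × ZMod p => v ≠ 0)).card + 1 = p ^ 2 := by
      have h3 := Finset.card_filter_add_card_filter_not (s := (Finset.univ : Finset (ZMod p × ZMod p)))
        (fun v => v ≠ 0)
      have h4 : (Finset.univ.filter (fun v : ZMod p × ZMod p => ¬ v ≠ 0)).card = 1 := by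
        have : (Finset.univ.filter (fun v : ZMod p × ZMod p => ¬ v ≠ 0)) = {0} := by
          ext v; simp
        rw [this, Finset.card_singleton]
      rw [h4] at h3
      rw [h3, Finset.card_univ, Fintype.card_prod, ZMod.card]
      ring
    simp only [A]
    rw [Finset.card_product, Finset.card_univ, ZMod.card, ← h1]
    ring
  have hB : B.card = p ^ 2 := by
    simp only [B]
    rw [Finset.card_univ, Fintype.card_prod, ZMod.card]
    ring
  rw [hB] at hcard
  have : p ^ 3 = p ^ 2 * p := by ring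
  omega

end Pool.Agent.LibTri
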