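import Mathlib
import Pool.Agent.LibTri.Local

set_option autoImplicit false

namespace Pool.Agent.LibTri

open Finset

/-- Number of zeros of the sum of four squares modulo `M`. -/
noncomputable def solN (M : ℕ) : ℕ :=
  Nat.card {x : ZMod M × ZMod M × ZMod M × ZMod M //
    x.1 ^ 2 + x.2.1 ^ 2 + x.2.2.1 ^ 2 + x.2.2.2 ^ 2 = 0}

lemma solN_eq (M : ℕ) [NeZero M] : solN M = (sol (ZMod M)).card := by
  unfold solN sol
  rw [Nat.card_eq_fintype_card, Fintype.card_subtype]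

lemma solN_one : 1 ≤ solN 1 := by
  rw [solN_eq 1]
  apply Finset.card_pos.mpr
  exact ⟨0, by rw [mem_sol]; simp⟩

lemma solN_mul (M p : ℕ) (hM : 0 < M) (hp : 0 < p) (hc : Nat.Coprime M p) :
    solN M * solN p ≤ solN (M * p) := by
  haveI : NeZero M := ⟨hM.ne'⟩
  haveI : NeZero p := ⟨hp.ne'⟩
  haveI : NeZero (M * p) := ⟨(Nat.mul_pos hM hp).ne'⟩
  rw [solN_eq, solN_eq, solN_eq]
  refine sol_card_prod.trans ?_
  exact sol_card_le_of_equiv (ZMod.chineseRemainder hc).symm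

lemma solN_prime (p : ℕ) (hp : p.Prime) (hodd : p ≠ 2) : p ^ 3 + p ^ 2 ≤ solN p + p := by
  haveI : Fact p.Prime := ⟨hp⟩
  haveI : NeZero p := ⟨hp.pos.ne'⟩
  rw [solN_eq]
  exact sol_card_prime p hodd

lemma solN_prod (S : Finset ℕ) (hS : ∀ p ∈ S, p.Prime ∧ p ≠ 2) :
    ∏ p ∈ S, ((p:ℝ) ^ 3 * (1 + 1 / p - 1 / (p:ℝ) ^ 2)) ≤ (solN (∏ p ∈ S, p) : ℝ) := by
  classical
  induction S using Finset.induction_on with
  | empty =>
    simp only [Finset.prod_empty]
    exact_mod_cast solN_one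
  | insert p S hpS ih =>
    rw [Finset.prod_insert hpS, Finset.prod_insert hpS]
    have hS' : ∀ q ∈ S, q.Prime ∧ q ≠ 2 := fun q hq => hS q (Finset.mem_insert_of_mem hq)
    have hp := hS p (Finset.mem_insert_self _ _)
    have ih' := ih hS'
    have hprodpos : 0 < ∏ q ∈ S, q := Finset.prod_pos (fun q hq => (hS' q hq).1.pos)
    have hcop : Nat.Coprime (∏ q ∈ S, q) p := by
      apply Nat.Coprime.prod_left
      intro q hq
      rw [Nat.coprime_primes (hS' q hq).1 hp.1]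
      rintro rfl
      exact hpS hq
    have h1 := solN_mul (∏ q ∈ S, q) p hprodpos hp.1.pos hcop
    rw [mul_comm p (∏ q ∈ S, q)]
    have hp1 : (p:ℝ) ^ 3 * (1 + 1 / p - 1 / (p:ℝ) ^ 2) ≤ (solN p : ℝ) := by
      have hp0 : (p:ℝ) ≠ 0 := by exact_mod_cast hp.1.pos.ne'
      have h2 : (p:ℝ) ^ 3 * (1 + 1 / p - 1 / (p:ℝ) ^ 2) = (p:ℝ) ^ 3 + p ^ 2 - p := by
        field_simp
      rw [h2]
      have h3 : ((p ^ 3 + p ^ 2 : ℕ):ℝ) ≤ ((solN p + p : ℕ):ℝ) := by
        exact_mod_cast solN_prime p hp.1 hp.2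
      push_cast at h3
      linarith
    have hp1' : (1:ℝ) ≤ p := by exact_mod_cast hp.1.one_le
    have hfac : ∀ q : ℕ, 1 ≤ q → 0 ≤ (q:ℝ) ^ 3 * (1 + 1 / q - 1 / (q:ℝ) ^ 2) := by
      intro q hq
      have hq' : (1:ℝ) ≤ q := by exact_mod_cast hq
      have : 1 / (q:ℝ) ^ 2 ≤ 1 := by
        rw [div_le_one (by positivity)]
        exact one_le_pow₀ hq'
      have h2 : 0 ≤ 1 / (q:ℝ) := by positivity
      have : 0 ≤ (1 + 1 / (q:ℝ) - 1 / (q:ℝ) ^ 2) := by linarith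
      positivity
    calc (p:ℝ) ^ 3 * (1 + 1 / p - 1 / (p:ℝ) ^ 2) *
          ∏ q ∈ S, ((q:ℝ) ^ 3 * (1 + 1 / q - 1 / (q:ℝ) ^ 2))
        ≤ (solN p : ℝ) * (solN (∏ q ∈ S, q) : ℝ) := by
          apply mul_le_mul hp1 ih'
          · apply Finset.prod_nonneg
            intro q hq
            exact hfac q (hS' q hq).1.one_le
          · positivity
      _ = ((solN (∏ q ∈ S, q) * solN p : ℕ) : ℝ) := by push_cast; ring
      _ ≤ (solN ((∏ q ∈ S, q) * p) : ℝ) := by exact_mod_cast h1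

/-- The box of quadruples of positive integers up to `X`. -/
def box4 (X : ℕ) : Finset (ℕ × ℕ × ℕ × ℕ) :=
  Finset.Icc 1 X ×ˢ (Finset.Icc 1 X ×ˢ (Finset.Icc 1 X ×ˢ Finset.Icc 1 X))

/-- The sum of four squares. -/
def N4 (q : ℕ × ℕ × ℕ × ℕ) : ℕ := q.1 ^ 2 + q.2.1 ^ 2 + q.2.2.1 ^ 2 + q.2.2.2 ^ 2

lemma box_count (M H : ℕ) (hM : 0 < M) :
    H ^ 4 * solN M ≤ ((box4 (M * H)).filter (fun q => M ∣ N4 q)).card := by
  classical
  haveI : NeZero M := ⟨hM.ne'⟩
  rw [solN_eq]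
  let R : Finset ℕ := Finset.range H
  have hR : (R ×ˢ (R ×ˢ (R ×ˢ R))).card = H ^ 4 := by
    simp only [Finset.card_product, R, Finset.card_range]; ring
  rw [← hR, ← Finset.card_product]
  let φ : ZMod M → ℕ → ℕ := fun x t => 1 + (x - 1).val + M * t
  have hφcast : ∀ x t, ((φ x t : ℕ) : ZMod M) = x := by
    intro x t
    simp only [φ]
    push_cast
    rw [ZMod.natCast_val, ZMod.cast_id', id, ZMod.natCast_self]
    ring
  have hφinj : ∀ x t x' t', φ x t = φ x' t' → x = x' ∧ t = t' := by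
    intro x t x' t' h
    have hx : x = x' := by
      rw [← hφcast x t, ← hφcast x' t', h]
    refine ⟨hx, ?_⟩
    subst hx
    simp only [φ] at h
    have : M * t = M * t' := by omega
    exact Nat.eq_of_mul_eq_mul_left hM this
  have hφrange : ∀ x, ∀ t ∈ R, φ x t ∈ Finset.Icc 1 (M * H) := by
    intro x t ht
    rw [Finset.mem_Icc]
    simp only [φ, R, Finset.mem_range] at *
    have h1 := ZMod.val_lt (x - 1)
    have h2 : M * t + M ≤ M * H := by
      calc M * t + M = M * (t + 1) := by ring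
        _ ≤ M * H := Nat.mul_le_mul_left _ ht
    omega
  refine Finset.card_le_card_of_injOn
    (fun z => (φ z.2.1 z.1.1, φ z.2.2.1 z.1.2.1, φ z.2.2.2.1 z.1.2.2.1, φ z.2.2.2.2 z.1.2.2.2))
    ?_ ?_
  · intro z hz
    rw [Finset.mem_coe, Finset.mem_product, mem_sol] at hz
    obtain ⟨hz1, hz2⟩ := hz
    simp only [Finset.mem_product] at hz1
    obtain ⟨g1, g2, g3, g4⟩ := hz1
    rw [Finset.mem_coe, Finset.mem_filter]
    refine ⟨?_, ?_⟩
    · unfold box4
      simp only [Finset.mem_product]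
      exact ⟨hφrange _ _ g1, hφrange _ _ g2, hφrange _ _ g3, hφrange _ _ g4⟩
    · rw [← ZMod.natCast_eq_zero_iff]
      unfold N4
      push_cast
      rw [hφcast, hφcast, hφcast, hφcast]
      exact hz2
  · intro z _ z' _ h
    simp only [Prod.mk.injEq] at h
    obtain ⟨e1, e2, e3, e4⟩ := h
    have f1 := hφinj _ _ _ _ e1
    have f2 := hφinj _ _ _ _ e2
    have f3 := hφinj _ _ _ _ e3
    have f4 := hφinj _ _ _ _ e4
    ext
    · exact f1.2
    · exact f2.2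
    · exact f3.2
    · exact f4.2
    · exact f1.1
    · exact f2.1
    · exact f3.1
    · exact f4.1

end Pool.Agent.LibTri
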