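import Mathlib
import Pool.Agent.LibTri.Count

set_option autoImplicit false

namespace Pool.Agent.LibTri

open Finset

/-- Index set: a subset `U` of `S` together with a quadruple `q` in the box attached to `U`
with `∏ (S \ U)` dividing the norm of `q`. -/
noncomputable def idx (S : Finset ℕ) (g : ℕ) : Finset (Finset ℕ × (ℕ × ℕ × ℕ × ℕ)) :=
  S.powerset.biUnion (fun U =>
    ((box4 ((∏ p ∈ S \ U, p) * Nat.sqrt (g ^ 2 * ∏ p ∈ U, p))).filter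
      (fun q => (∏ p ∈ S \ U, p) ∣ N4 q)).image (fun q => (U, q)))

/-- The norm attached to an index. -/
def key (z : Finset ℕ × (ℕ × ℕ × ℕ × ℕ)) : ℕ := (∏ p ∈ z.1, p) * N4 z.2

lemma mem_idx {S : Finset ℕ} {g : ℕ} {z : Finset ℕ × (ℕ × ℕ × ℕ × ℕ)} :
    z ∈ idx S g ↔ z.1 ⊆ S ∧
      z.2 ∈ box4 ((∏ p ∈ S \ z.1, p) * Nat.sqrt (g ^ 2 * ∏ p ∈ z.1, p)) ∧
      (∏ p ∈ S \ z.1, p) ∣ N4 z.2 := by
  unfold idx
  simp only [Finset.mem_biUnion, Finset.mem_powerset, Finset.mem_image, Finset.mem_filter]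
  constructor
  · rintro ⟨U, hU, q, ⟨hq1, hq2⟩, rfl⟩
    exact ⟨hU, hq1, hq2⟩
  · rintro ⟨h1, h2, h3⟩
    exact ⟨z.1, h1, z.2, ⟨h2, h3⟩, rfl⟩

lemma idx_card (S : Finset ℕ) (g : ℕ) :
    (idx S g).card = ∑ U ∈ S.powerset,
      ((box4 ((∏ p ∈ S \ U, p) * Nat.sqrt (g ^ 2 * ∏ p ∈ U, p))).filter
        (fun q => (∏ p ∈ S \ U, p) ∣ N4 q)).card := by
  unfold idx
  rw [Finset.card_biUnion]
  · apply Finset.sum_congr rfl
    intro U _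
    rw [Finset.card_image_of_injective]
    intro q q' h
    exact (Prod.mk.inj h).2
  · intro U _ U' _ hne
    rw [Function.onFun, Finset.disjoint_left]
    intro z hz hz'
    rw [Finset.mem_image] at hz hz'
    obtain ⟨q, _, rfl⟩ := hz
    obtain ⟨q', _, h⟩ := hz'
    exact hne (Prod.mk.inj h).1.symm

lemma mem_box4 {X : ℕ} {q : ℕ × ℕ × ℕ × ℕ} : q ∈ box4 X ↔
    (1 ≤ q.1 ∧ q.1 ≤ X) ∧ (1 ≤ q.2.1 ∧ q.2.1 ≤ X) ∧ (1 ≤ q.2.2.1 ∧ q.2.2.1 ≤ X) ∧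
      (1 ≤ q.2.2.2 ∧ q.2.2.2 ≤ X) := by
  unfold box4
  simp only [Finset.mem_product, Finset.mem_Icc]

lemma prod_split (S U : Finset ℕ) (hU : U ⊆ S) :
    (∏ p ∈ U, p) * (∏ p ∈ S \ U, p) = ∏ p ∈ S, p := by
  rw [mul_comm]
  exact Finset.prod_sdiff hU

lemma key_bounds {S : Finset ℕ} (hS : ∀ p ∈ S, p.Prime ∧ p ≠ 2) {g : ℕ}
    {z : Finset ℕ × (ℕ × ℕ × ℕ × ℕ)} (hz : z ∈ idx S g) :
    1 ≤ key z ∧ key z ≤ 4 * (∏ p ∈ S, p) ^ 2 * g ^ 2 ∧ (∏ p ∈ S, p) ∣ key z := by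
  rw [mem_idx] at hz
  obtain ⟨hU, hb, hd⟩ := hz
  rw [mem_box4] at hb
  obtain ⟨⟨a1, a2⟩, ⟨b1, b2⟩, ⟨c1, c2⟩, ⟨d1, d2⟩⟩ := hb
  have hsplit := prod_split S z.1 hU
  have hjpos : 0 < ∏ p ∈ z.1, p := Finset.prod_pos (fun p hp => (hS p (hU hp)).1.pos)
  set j := ∏ p ∈ z.1, p with hj
  set m := ∏ p ∈ S \ z.1, p with hm
  set H := Nat.sqrt (g ^ 2 * j) with hH
  have hH2 : H * H ≤ g ^ 2 * j := Nat.sqrt_le _
  refine ⟨?_, ?_, ?_⟩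
  · unfold key
    rw [← hj]
    apply Nat.mul_pos hjpos
    unfold N4
    positivity
  · unfold key
    rw [← hj]
    have hN : N4 z.2 ≤ 4 * (m * H) ^ 2 := by
      unfold N4
      have e1 := Nat.pow_le_pow_left a2 2
      have e2 := Nat.pow_le_pow_left b2 2
      have e3 := Nat.pow_le_pow_left c2 2
      have e4 := Nat.pow_le_pow_left d2 2
      omega
    calc j * N4 z.2 ≤ j * (4 * (m * H) ^ 2) := Nat.mul_le_mul_left _ hN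
      _ = 4 * j * m ^ 2 * (H * H) := by ring
      _ ≤ 4 * j * m ^ 2 * (g ^ 2 * j) := Nat.mul_le_mul_left _ hH2
      _ = 4 * (j * m) ^ 2 * g ^ 2 := by ring
      _ = 4 * (∏ p ∈ S, p) ^ 2 * g ^ 2 := by rw [hsplit]
  · unfold key
    rw [← hj, ← hsplit]
    exact Nat.mul_dvd_mul_left _ hd

lemma idx_card_ge (S : Finset ℕ) (hS : ∀ p ∈ S, p.Prime ∧ p ≠ 2) (g : ℕ) (hg : 1 ≤ g) :
    (g:ℝ) ^ 4 * (∏ p ∈ S, (p:ℝ)) ^ 3 / 16 * ∏ p ∈ S, (1 + 2 / (p:ℝ) - 1 / (p:ℝ) ^ 2) ≤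
      ((idx S g).card : ℝ) := by
  classical
  rw [idx_card]
  push_cast
  have hexp : ∏ p ∈ S, (1 + 2 / (p:ℝ) - 1 / (p:ℝ) ^ 2) =
      ∑ U ∈ S.powerset, (∏ p ∈ U, (1 / (p:ℝ))) *
        ∏ p ∈ S \ U, (1 + 1 / (p:ℝ) - 1 / (p:ℝ) ^ 2) := by
    rw [← Finset.prod_add]
    apply Finset.prod_congr rfl
    intro p _
    ring
  rw [hexp, Finset.mul_sum]
  apply Finset.sum_le_sum
  intro U hU
  rw [Finset.mem_powerset] at hU
  have hS' : ∀ p ∈ S \ U, p.Prime ∧ p ≠ 2 := fun p hp => hS p (Finset.sdiff_subset hp)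
  have hmpos : 0 < ∏ p ∈ S \ U, p := Finset.prod_pos (fun p hp => (hS' p hp).1.pos)
  have hjpos : 0 < ∏ p ∈ U, p := Finset.prod_pos (fun p hp => (hS p (hU hp)).1.pos)
  have hbox := box_count (∏ p ∈ S \ U, p) (Nat.sqrt (g ^ 2 * ∏ p ∈ U, p)) hmpos
  have hsol := solN_prod (S \ U) hS'
  rw [Finset.prod_mul_distrib, Finset.prod_pow] at hsol
  have hsplit : (∏ p ∈ U, (p:ℝ)) * (∏ p ∈ S \ U, (p:ℝ)) = ∏ p ∈ S, (p:ℝ) := by
    rw [mul_comm]; exact Finset.prod_sdiff hU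
  have hinv : ∏ p ∈ U, (1 / (p:ℝ)) = 1 / ∏ p ∈ U, (p:ℝ) := by
    simp [Finset.prod_inv_distrib]
  rw [hinv]
  set jn := ∏ p ∈ U, p with hjn
  set mn := ∏ p ∈ S \ U, p with hmn
  have hjr : (∏ p ∈ U, (p:ℝ)) = (jn:ℝ) := by rw [hjn]; push_cast; rfl
  have hmr : (∏ p ∈ S \ U, (p:ℝ)) = (mn:ℝ) := by rw [hmn]; push_cast; rfl
  rw [hjr, hmr] at hsplit
  rw [hmr] at hsol
  rw [hjr, ← hsplit]
  set F := ∏ p ∈ S \ U, (1 + 1 / (p:ℝ) - 1 / (p:ℝ) ^ 2) with hF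
  have hj0 : (0:ℝ) < jn := by exact_mod_cast hjpos
  have hm0 : (0:ℝ) < mn := by exact_mod_cast hmpos
  have hF0 : 0 ≤ F := by
    apply Finset.prod_nonneg
    intro q hq
    have hq' : (1:ℝ) ≤ q := by exact_mod_cast (hS' q hq).1.one_le
    have h1 : 1 / (q:ℝ) ^ 2 ≤ 1 := by
      rw [div_le_one (by positivity)]
      exact one_le_pow₀ hq'
    have h2 : 0 ≤ 1 / (q:ℝ) := by positivity
    linarith
  set H := Nat.sqrt (g ^ 2 * jn) with hH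
  have hH1 : 1 ≤ H := by
    apply Nat.sqrt_pos.mpr
    positivity
  have hH2 : g ^ 2 * jn < (H + 1) * (H + 1) := Nat.lt_succ_sqrt _
  have hH3 : g ^ 2 * jn ≤ 4 * H ^ 2 := by nlinarith
  have hH4 : (g:ℝ) ^ 4 * (jn:ℝ) ^ 2 ≤ 16 * (H:ℝ) ^ 4 := by
    have : ((g ^ 2 * jn : ℕ) : ℝ) ≤ ((4 * H ^ 2 : ℕ) : ℝ) := by exact_mod_cast hH3
    push_cast at this
    have h5 : ((g:ℝ) ^ 2 * jn) ^ 2 ≤ (4 * (H:ℝ) ^ 2) ^ 2 :=
      pow_le_pow_left₀ (by positivity) this 2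
    nlinarith
  calc (g:ℝ) ^ 4 * (jn * mn) ^ 3 / 16 * (1 / jn * F)
      = ((g:ℝ) ^ 4 * (jn:ℝ) ^ 2) / 16 * ((mn:ℝ) ^ 3 * F) := by
        field_simp
    _ ≤ (16 * (H:ℝ) ^ 4) / 16 * ((mn:ℝ) ^ 3 * F) := by
        apply mul_le_mul_of_nonneg_right _ (by positivity)
        linarith
    _ = (H:ℝ) ^ 4 * ((mn:ℝ) ^ 3 * F) := by ring
    _ ≤ (H:ℝ) ^ 4 * (solN mn : ℝ) := by
        apply mul_le_mul_of_nonneg_left hsol (by positivity)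
    _ ≤ _ := by exact_mod_cast hbox

/-- A norm `k` with many representations. -/
lemma pigeon (S : Finset ℕ) (hS : ∀ p ∈ S, p.Prime ∧ p ≠ 2) (g : ℕ) (hg : 1 ≤ g) :
    ∃ k : ℕ, 1 ≤ k ∧ k ≤ 4 * (∏ p ∈ S, p) ^ 2 * g ^ 2 ∧
      (g:ℝ) ^ 2 * (∏ p ∈ S, (p:ℝ)) ^ 2 / 64 * ∏ p ∈ S, (1 + 2 / (p:ℝ) - 1 / (p:ℝ) ^ 2) ≤
        (((idx S g).filter (fun z => key z = k)).card : ℝ) := by
  classical
  have hMpos : 0 < ∏ p ∈ S, p := Finset.prod_pos (fun p hp => (hS p hp).1.pos)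
  set M := ∏ p ∈ S, p with hM
  have hMr : (∏ p ∈ S, (p:ℝ)) = (M:ℝ) := by rw [hM]; push_cast; rfl
  have hcard := idx_card_ge S hS g hg
  rw [hMr] at hcard ⊢
  set G := ∏ p ∈ S, (1 + 2 / (p:ℝ) - 1 / (p:ℝ) ^ 2) with hG
  have hM0 : (0:ℝ) < M := by exact_mod_cast hMpos
  have hg0 : (0:ℝ) < g := by exact_mod_cast hg
  let K : Finset ℕ := (Finset.Icc 1 (4 * M * g ^ 2)).image (fun κ => M * κ)
  have hKcard : K.card ≤ 4 * M * g ^ 2 := by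
    refine Finset.card_image_le.trans ?_
    rw [Nat.card_Icc]; omega
  have hKpos : 0 < K.card := by
    apply Finset.card_pos.mpr
    exact ⟨M * 1, Finset.mem_image.mpr ⟨1, Finset.mem_Icc.mpr ⟨le_refl _, by
      have : 0 < M * g ^ 2 := by positivity
      nlinarith⟩, rfl⟩⟩
  have hmaps : ∀ z ∈ idx S g, key z ∈ K := by
    intro z hz
    obtain ⟨h1, h2, κ, hκ⟩ := key_bounds hS hz
    rw [Finset.mem_image]
    refine ⟨κ, ?_, hκ.symm⟩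
    rw [Finset.mem_Icc]
    constructor
    · by_contra hcon
      have : κ = 0 := by omega
      rw [this] at hκ
      omega
    · rw [hκ, ← hM] at h2
      have : M * κ ≤ M * (4 * M * g ^ 2) := by
        calc M * κ ≤ 4 * M ^ 2 * g ^ 2 := h2
          _ = M * (4 * M * g ^ 2) := by ring
      exact Nat.le_of_mul_le_mul_left this hMpos
  have hsum := Finset.card_eq_sum_card_fiberwise (f := key) (s := idx S g) (t := K)
    (by intro z hz; exact Finset.mem_coe.mpr (hmaps z (Finset.mem_coe.mp hz)))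
  -- average
  have hsumR : ((idx S g).card : ℝ) =
      ∑ k ∈ K, (((idx S g).filter (fun z => key z = k)).card : ℝ) := by
    rw [hsum]; push_cast; rfl
  have hKne : K.Nonempty := Finset.card_pos.mp hKpos
  have hle : ∑ k ∈ K, ((g:ℝ) ^ 2 * M ^ 2 / 64 * G) ≤
      ∑ k ∈ K, (((idx S g).filter (fun z => key z = k)).card : ℝ) := by
    rw [← hsumR, Finset.sum_const, nsmul_eq_mul]
    refine le_trans ?_ hcard
    have hG0 : 0 ≤ G := by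
      apply Finset.prod_nonneg
      intro q hq
      have hq' : (1:ℝ) ≤ q := by exact_mod_cast (hS q hq).1.one_le
      have h1 : 1 / (q:ℝ) ^ 2 ≤ 1 := by
        rw [div_le_one (by positivity)]
        exact one_le_pow₀ hq'
      have h2 : 0 ≤ 2 / (q:ℝ) := by positivity
      linarith
    have hK' : (K.card : ℝ) ≤ 4 * M * (g:ℝ) ^ 2 := by exact_mod_cast hKcard
    calc (K.card : ℝ) * ((g:ℝ) ^ 2 * M ^ 2 / 64 * G)
        ≤ (4 * M * (g:ℝ) ^ 2) * ((g:ℝ) ^ 2 * M ^ 2 / 64 * G) := by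
          apply mul_le_mul_of_nonneg_right hK' (by positivity)
      _ = (g:ℝ) ^ 4 * (M:ℝ) ^ 3 / 16 * G := by ring
  obtain ⟨k, hk, hkle⟩ := Finset.exists_le_of_sum_le hKne hle
  refine ⟨k, ?_, ?_, hkle⟩
  · obtain ⟨κ, hκ, rfl⟩ := Finset.mem_image.mp hk
    rw [Finset.mem_Icc] at hκ
    exact Nat.mul_pos hMpos hκ.1
  · obtain ⟨κ, hκ, rfl⟩ := Finset.mem_image.mp hk
    rw [Finset.mem_Icc] at hκ
    calc M * κ ≤ M * (4 * M * g ^ 2) := Nat.mul_le_mul_left _ hκ.2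
      _ = 4 * M ^ 2 * g ^ 2 := by ring

end Pool.Agent.LibTri
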