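import Mathlib
import Pool.Agent.LibTri.Pigeon

set_option autoImplicit false

namespace Pool.Agent.LibTri

open Finset

lemma prod_factorization (U : Finset ℕ) (hU : ∀ p ∈ U, p.Prime) (p : ℕ) :
    (∏ q ∈ U, q).factorization p = if p ∈ U then 1 else 0 := by
  classical
  rw [Nat.factorization_prod (fun q hq => (hU q hq).ne_zero)]
  rw [Finsupp.finsetSum_apply]
  split_ifs with h
  · rw [Finset.sum_eq_single p]
    · exact (hU p h).factorization_self
    · intro q hq hne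
      rw [(hU q hq).factorization]
      exact Finsupp.single_eq_of_ne (Ne.symm hne)
    · intro h'; exact absurd h h'
  · apply Finset.sum_eq_zero
    intro q hq
    rw [(hU q hq).factorization]
    apply Finsupp.single_eq_of_ne
    rintro rfl
    exact h hq

lemma sqfree_unique (U U' : Finset ℕ) (hU : ∀ p ∈ U, p.Prime) (hU' : ∀ p ∈ U', p.Prime)
    (a a' : ℕ) (ha : 1 ≤ a) (ha' : 1 ≤ a')
    (h : (∏ p ∈ U, p) * a ^ 2 = (∏ p ∈ U', p) * a' ^ 2) : U = U' ∧ a = a' := by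
  classical
  have h1 : (∏ p ∈ U, p) ≠ 0 := (Finset.prod_pos (fun p hp => (hU p hp).pos)).ne'
  have h2 : (∏ p ∈ U', p) ≠ 0 := (Finset.prod_pos (fun p hp => (hU' p hp).pos)).ne'
  have key : ∀ p, (if p ∈ U then 1 else 0) + 2 * a.factorization p =
      (if p ∈ U' then 1 else 0) + 2 * a'.factorization p := by
    intro p
    have := congrArg (fun n => n.factorization p) h
    rw [Nat.factorization_mul h1 (by positivity), Nat.factorization_mul h2 (by positivity)] at this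
    rw [Finsupp.add_apply, Finsupp.add_apply, prod_factorization U hU, prod_factorization U' hU',
      Nat.factorization_pow, Nat.factorization_pow] at this
    simpa using this
  have hUU : U = U' := by
    ext p
    have := key p
    constructor
    · intro hp
      by_contra hcon
      rw [if_pos hp, if_neg hcon] at this
      omega
    · intro hp
      by_contra hcon
      rw [if_neg hcon, if_pos hp] at this
      omega
  refine ⟨hUU, ?_⟩
  subst hUU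
  have h3 : a ^ 2 = a' ^ 2 := Nat.eq_of_mul_eq_mul_left (Nat.pos_of_ne_zero h1) h
  exact Nat.pow_left_injective (n := 2) (by norm_num) h3

/-- `j` times the rotation matrix of the quaternion `a + b i + c j + d k`, times its norm. -/
def rot (j a b c d : ℤ) (x : Fin 3 → ℤ) : Fin 3 → ℤ :=
  ![j * ((a ^ 2 + b ^ 2 - c ^ 2 - d ^ 2) * x 0 + 2 * (b * c - a * d) * x 1
      + 2 * (b * d + a * c) * x 2),
    j * (2 * (b * c + a * d) * x 0 + (a ^ 2 - b ^ 2 + c ^ 2 - d ^ 2) * x 1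
      + 2 * (c * d - a * b) * x 2),
    j * (2 * (b * d - a * c) * x 0 + 2 * (c * d + a * b) * x 1
      + (a ^ 2 - b ^ 2 - c ^ 2 + d ^ 2) * x 2)]

/-- The integral scaled rotation attached to an index. -/
def act (z : Finset ℕ × (ℕ × ℕ × ℕ × ℕ)) (x : Fin 3 → ℤ) : Fin 3 → ℤ :=
  rot ((∏ p ∈ z.1, p : ℕ) : ℤ) z.2.1 z.2.2.1 z.2.2.2.1 z.2.2.2.2 x

lemma rot_inner (j a b c d : ℤ) (x y : Fin 3 → ℤ) :
    rot j a b c d x 0 * rot j a b c d y 0 + rot j a b c d x 1 * rot j a b c d y 1 +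
      rot j a b c d x 2 * rot j a b c d y 2 =
    (j * (a ^ 2 + b ^ 2 + c ^ 2 + d ^ 2)) ^ 2 * (x 0 * y 0 + x 1 * y 1 + x 2 * y 2) := by
  simp only [rot, Matrix.cons_val_zero, Matrix.cons_val_one, Matrix.cons_val]
  ring

lemma act_inner (z : Finset ℕ × (ℕ × ℕ × ℕ × ℕ)) (x y : Fin 3 → ℤ) :
    act z x 0 * act z y 0 + act z x 1 * act z y 1 + act z x 2 * act z y 2 =
    ((key z : ℕ) : ℤ) ^ 2 * (x 0 * y 0 + x 1 * y 1 + x 2 * y 2) := by
  unfold act
  rw [rot_inner]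
  unfold key N4
  push_cast
  ring

/-- Cross product. -/
def crs (x y : Fin 3 → ℤ) : Fin 3 → ℤ :=
  ![x 1 * y 2 - x 2 * y 1, x 2 * y 0 - x 0 * y 2, x 0 * y 1 - x 1 * y 0]

lemma rot_cross (j a b c d : ℤ) (x y : Fin 3 → ℤ) (i : Fin 3) :
    crs (rot j a b c d x) (rot j a b c d y) i =
      (j * (a ^ 2 + b ^ 2 + c ^ 2 + d ^ 2)) * rot j a b c d (crs x y) i := by
  fin_cases i <;>
  · simp [rot, crs]
    ring

lemma act_cross (z : Finset ℕ × (ℕ × ℕ × ℕ × ℕ)) (x y : Fin 3 → ℤ) (i : Fin 3) :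
    crs (act z x) (act z y) i = ((key z : ℕ) : ℤ) * act z (crs x y) i := by
  unfold act
  rw [rot_cross]
  unfold key N4
  push_cast
  ring

/-- A row killed by `x`, `y` and `x × y` vanishes. -/
lemma row_zero (r x y : Fin 3 → ℤ) (hn : crs x y ≠ 0)
    (h1 : r 0 * x 0 + r 1 * x 1 + r 2 * x 2 = 0)
    (h2 : r 0 * y 0 + r 1 * y 1 + r 2 * y 2 = 0)
    (h3 : r 0 * crs x y 0 + r 1 * crs x y 1 + r 2 * crs x y 2 = 0) :
    r 0 = 0 ∧ r 1 = 0 ∧ r 2 = 0 := by
  have hn2 : crs x y 0 ^ 2 + crs x y 1 ^ 2 + crs x y 2 ^ 2 ≠ 0 := by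
    intro h
    apply hn
    have e0 : crs x y 0 = 0 := by nlinarith [sq_nonneg (crs x y 0), sq_nonneg (crs x y 1), sq_nonneg (crs x y 2)]
    have e1 : crs x y 1 = 0 := by nlinarith [sq_nonneg (crs x y 0), sq_nonneg (crs x y 1), sq_nonneg (crs x y 2)]
    have e2 : crs x y 2 = 0 := by nlinarith [sq_nonneg (crs x y 0), sq_nonneg (crs x y 1), sq_nonneg (crs x y 2)]
    funext i
    fin_cases i
    · exact e0
    · exact e1
    · exact e2
  simp only [crs, Matrix.cons_val_zero, Matrix.cons_val_one, Matrix.cons_val] at hn2 h3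
  refine ⟨?_, ?_, ?_⟩
  · apply (mul_eq_zero.mp (?_ : r 0 * _ = 0)).resolve_right hn2
    linear_combination (x 1 * y 2 - x 2 * y 1) * h3 +
      ((x 2 * y 0 - x 0 * y 2) * x 2 - (x 0 * y 1 - x 1 * y 0) * x 1) * h2 -
      ((x 2 * y 0 - x 0 * y 2) * y 2 - (x 0 * y 1 - x 1 * y 0) * y 1) * h1
  · apply (mul_eq_zero.mp (?_ : r 1 * _ = 0)).resolve_right hn2
    linear_combination (x 2 * y 0 - x 0 * y 2) * h3 +
      ((x 0 * y 1 - x 1 * y 0) * x 0 - (x 1 * y 2 - x 2 * y 1) * x 2) * h2 -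
      ((x 0 * y 1 - x 1 * y 0) * y 0 - (x 1 * y 2 - x 2 * y 1) * y 2) * h1
  · apply (mul_eq_zero.mp (?_ : r 2 * _ = 0)).resolve_right hn2
    linear_combination (x 0 * y 1 - x 1 * y 0) * h3 +
      ((x 1 * y 2 - x 2 * y 1) * x 1 - (x 2 * y 0 - x 0 * y 2) * x 0) * h2 -
      ((x 1 * y 2 - x 2 * y 1) * y 1 - (x 2 * y 0 - x 0 * y 2) * y 0) * h1

lemma rot_diff (j a b c d j' a' b' c' d' : ℤ) (x y : Fin 3 → ℤ) (hn : crs x y ≠ 0)
    (hk : j * (a ^ 2 + b ^ 2 + c ^ 2 + d ^ 2) = j' * (a' ^ 2 + b' ^ 2 + c' ^ 2 + d' ^ 2))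
    (hk0 : j * (a ^ 2 + b ^ 2 + c ^ 2 + d ^ 2) ≠ 0)
    (hx : rot j a b c d x = rot j' a' b' c' d' x) (hy : rot j a b c d y = rot j' a' b' c' d' y) :
    j * a ^ 2 = j' * a' ^ 2 ∧ j * b ^ 2 = j' * b' ^ 2 ∧ j * c ^ 2 = j' * c' ^ 2 ∧
      j * d ^ 2 = j' * d' ^ 2 := by
  have hz : ∀ i, rot j a b c d (crs x y) i = rot j' a' b' c' d' (crs x y) i := by
    intro i
    have e1 := rot_cross j a b c d x y i
    have e2 := rot_cross j' a' b' c' d' x y i
    rw [hx, hy] at e1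
    rw [e1] at e2
    rw [← hk] at e2
    exact mul_left_cancel₀ hk0 e2
  have hx0 := congrFun hx 0
  have hx1 := congrFun hx 1
  have hx2 := congrFun hx 2
  have hy0 := congrFun hy 0
  have hy1 := congrFun hy 1
  have hy2 := congrFun hy 2
  have hz0 := hz 0
  have hz1 := hz 1
  have hz2 := hz 2
  set n := crs x y with hndef
  simp only [rot, Matrix.cons_val_zero, Matrix.cons_val_one, Matrix.cons_val] at hx0 hx1 hx2 hy0 hy1 hy2 hz0 hz1 hz2
  have r0 := row_zero ![j * (a ^ 2 + b ^ 2 - c ^ 2 - d ^ 2) - j' * (a' ^ 2 + b' ^ 2 - c' ^ 2 - d' ^ 2),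
    j * (2 * (b * c - a * d)) - j' * (2 * (b' * c' - a' * d')),
    j * (2 * (b * d + a * c)) - j' * (2 * (b' * d' + a' * c'))] x y hn
    (by simp only [Matrix.cons_val_zero, Matrix.cons_val_one, Matrix.cons_val]
        linear_combination hx0)
    (by simp only [Matrix.cons_val_zero, Matrix.cons_val_one, Matrix.cons_val]
        linear_combination hy0)
    (by simp only [Matrix.cons_val_zero, Matrix.cons_val_one, Matrix.cons_val]
        linear_combination hz0)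
  have r1 := row_zero ![j * (2 * (b * c + a * d)) - j' * (2 * (b' * c' + a' * d')),
    j * (a ^ 2 - b ^ 2 + c ^ 2 - d ^ 2) - j' * (a' ^ 2 - b' ^ 2 + c' ^ 2 - d' ^ 2),
    j * (2 * (c * d - a * b)) - j' * (2 * (c' * d' - a' * b'))] x y hn
    (by simp only [Matrix.cons_val_zero, Matrix.cons_val_one, Matrix.cons_val]
        linear_combination hx1)
    (by simp only [Matrix.cons_val_zero, Matrix.cons_val_one, Matrix.cons_val]
        linear_combination hy1)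
    (by simp only [Matrix.cons_val_zero, Matrix.cons_val_one, Matrix.cons_val]
        linear_combination hz1)
  have r2 := row_zero ![j * (2 * (b * d - a * c)) - j' * (2 * (b' * d' - a' * c')),
    j * (2 * (c * d + a * b)) - j' * (2 * (c' * d' + a' * b')),
    j * (a ^ 2 - b ^ 2 - c ^ 2 + d ^ 2) - j' * (a' ^ 2 - b' ^ 2 - c' ^ 2 + d' ^ 2)] x y hn
    (by simp only [Matrix.cons_val_zero, Matrix.cons_val_one, Matrix.cons_val]
        linear_combination hx2)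
    (by simp only [Matrix.cons_val_zero, Matrix.cons_val_one, Matrix.cons_val]
        linear_combination hy2)
    (by simp only [Matrix.cons_val_zero, Matrix.cons_val_one, Matrix.cons_val]
        linear_combination hz2)
  simp only [Matrix.cons_val_zero, Matrix.cons_val_one, Matrix.cons_val] at r0 r1 r2
  obtain ⟨s0, -, -⟩ := r0
  obtain ⟨-, s1, -⟩ := r1
  obtain ⟨-, -, s2⟩ := r2
  refine ⟨?_, ?_, ?_, ?_⟩
  · have : 4 * (j * a ^ 2) = 4 * (j' * a' ^ 2) := by linear_combination hk + s0 + s1 + s2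
    omega
  · have : 4 * (j * b ^ 2) = 4 * (j' * b' ^ 2) := by linear_combination hk + s0 - s1 - s2
    omega
  · have : 4 * (j * c ^ 2) = 4 * (j' * c' ^ 2) := by linear_combination hk - s0 + s1 - s2
    omega
  · have : 4 * (j * d ^ 2) = 4 * (j' * d' ^ 2) := by linear_combination hk - s0 - s1 + s2
    omega

lemma act_inj {S : Finset ℕ} (hS : ∀ p ∈ S, p.Prime ∧ p ≠ 2) {g : ℕ}
    {z z' : Finset ℕ × (ℕ × ℕ × ℕ × ℕ)} (hz : z ∈ idx S g) (hz' : z' ∈ idx S g)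
    (hk : key z = key z') (x y : Fin 3 → ℤ) (hn : crs x y ≠ 0)
    (hx : act z x = act z' x) (hy : act z y = act z' y) : z = z' := by
  have hb := key_bounds hS hz
  rw [mem_idx] at hz hz'
  obtain ⟨hU, hq, -⟩ := hz
  obtain ⟨hU', hq', -⟩ := hz'
  rw [mem_box4] at hq hq'
  have hkz : (((∏ p ∈ z.1, p : ℕ) : ℤ)) * ((z.2.1:ℤ) ^ 2 + (z.2.2.1:ℤ) ^ 2 + (z.2.2.2.1:ℤ) ^ 2 +
      (z.2.2.2.2:ℤ) ^ 2) = ((∏ p ∈ z'.1, p : ℕ) : ℤ) * ((z'.2.1:ℤ) ^ 2 + (z'.2.2.1:ℤ) ^ 2 +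
      (z'.2.2.2.1:ℤ) ^ 2 + (z'.2.2.2.2:ℤ) ^ 2) := by
    have : ((key z : ℕ) : ℤ) = ((key z' : ℕ) : ℤ) := by rw [hk]
    unfold key N4 at this
    exact_mod_cast this
  have hkz0 : (((∏ p ∈ z.1, p : ℕ) : ℤ)) * ((z.2.1:ℤ) ^ 2 + (z.2.2.1:ℤ) ^ 2 +
      (z.2.2.2.1:ℤ) ^ 2 + (z.2.2.2.2:ℤ) ^ 2) ≠ 0 := by
    have : ((key z : ℕ) : ℤ) ≠ 0 := by
      have := hb.1
      omega
    unfold key N4 at this
    exact_mod_cast this
  obtain ⟨e1, e2, e3, e4⟩ := rot_diff _ _ _ _ _ _ _ _ _ _ x y hn hkz hkz0 hx hy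
  have hP : ∀ p ∈ z.1, p.Prime := fun p hp => (hS p (hU hp)).1
  have hP' : ∀ p ∈ z'.1, p.Prime := fun p hp => (hS p (hU' hp)).1
  have f1 := sqfree_unique z.1 z'.1 hP hP' z.2.1 z'.2.1 hq.1.1 hq'.1.1 (by exact_mod_cast e1)
  have f2 := sqfree_unique z.1 z'.1 hP hP' z.2.2.1 z'.2.2.1 hq.2.1.1 hq'.2.1.1
    (by exact_mod_cast e2)
  have f3 := sqfree_unique z.1 z'.1 hP hP' z.2.2.2.1 z'.2.2.2.1 hq.2.2.1.1 hq'.2.2.1.1
    (by exact_mod_cast e3)
  have f4 := sqfree_unique z.1 z'.1 hP hP' z.2.2.2.2 z'.2.2.2.2 hq.2.2.2.1 hq'.2.2.2.1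
    (by exact_mod_cast e4)
  exact Prod.ext f1.1 (Prod.ext f1.2 (Prod.ext f2.2 (Prod.ext f3.2 f4.2)))

end Pool.Agent.LibTri
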