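import Mathlib
import Pool.Agent.LibTri.Rot

set_option autoImplicit false

namespace Pool.Agent.LibTri

open Finset

/-- Euclidean three-space. -/
abbrev E3 := EuclideanSpace ℝ (Fin 3)

/-- The point of three-space with coordinates `w i / k`. -/
noncomputable def pt (k : ℝ) (w : Fin 3 → ℤ) : E3 := WithLp.toLp 2 (fun i => (w i : ℝ) / k)

/-- `s` is the image of the vertex set of the triangle `Δ` under an isometry of three-space. -/
def IsCopy (Δ : Fin 3 → E3) (s : Finset E3) : Prop :=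
  ∃ f : E3 ≃ᵢ E3, (s : Set E3) = f '' (Set.range Δ)

open Classical in
/-- Number of subsets of `P` congruent to the triangle `Δ`. -/
noncomputable def congCount (Δ : Fin 3 → E3) (P : Finset E3) : ℕ :=
  (P.powerset.filter (fun s => IsCopy Δ s)).card

lemma congCount_mono {Δ : Fin 3 → E3} {P P' : Finset E3} (h : P ⊆ P') :
    congCount Δ P ≤ congCount Δ P' := by
  classical
  unfold congCount
  apply Finset.card_le_card
  apply Finset.filter_subset_filter
  exact Finset.powerset_mono.mpr h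

/-- The real rotation of a quaternion. -/
noncomputable def rotLin (j a b c d : ℝ) : E3 →ₗ[ℝ] E3 where
  toFun v := WithLp.toLp 2 (fun i =>
    (![j * ((a ^ 2 + b ^ 2 - c ^ 2 - d ^ 2) * v 0 + 2 * (b * c - a * d) * v 1
      + 2 * (b * d + a * c) * v 2),
    j * (2 * (b * c + a * d) * v 0 + (a ^ 2 - b ^ 2 + c ^ 2 - d ^ 2) * v 1
      + 2 * (c * d - a * b) * v 2),
    j * (2 * (b * d - a * c) * v 0 + 2 * (c * d + a * b) * v 1
      + (a ^ 2 - b ^ 2 - c ^ 2 + d ^ 2) * v 2)] : Fin 3 → ℝ) i /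
      (j * (a ^ 2 + b ^ 2 + c ^ 2 + d ^ 2)))
  map_add' u v := by
    ext i
    fin_cases i <;> simp <;> ring
  map_smul' r v := by
    ext i
    fin_cases i <;> simp <;> ring

lemma rotLin_norm (j a b c d : ℝ) (h : j * (a ^ 2 + b ^ 2 + c ^ 2 + d ^ 2) ≠ 0) (v : E3) :
    ‖rotLin j a b c d v‖ = ‖v‖ := by
  have hsq : ‖rotLin j a b c d v‖ ^ 2 = ‖v‖ ^ 2 := by
    rw [EuclideanSpace.norm_sq_eq, EuclideanSpace.norm_sq_eq, Fin.sum_univ_three,
      Fin.sum_univ_three]
    simp only [Real.norm_eq_abs, sq_abs]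
    simp only [rotLin, LinearMap.coe_mk, AddHom.coe_mk, Matrix.cons_val_zero, Matrix.cons_val_one,
      Matrix.cons_val]
    rw [div_pow, div_pow, div_pow, ← add_div, ← add_div, div_eq_iff (pow_ne_zero 2 h)]
    ring
  exact (sq_eq_sq₀ (norm_nonneg _) (norm_nonneg _)).mp hsq

/-- The rotation as a linear isometry equivalence. -/
noncomputable def rotIso (j a b c d : ℝ) (h : j * (a ^ 2 + b ^ 2 + c ^ 2 + d ^ 2) ≠ 0) :
    E3 ≃ₗᵢ[ℝ] E3 :=
  LinearIsometry.toLinearIsometryEquiv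
    { toLinearMap := rotLin j a b c d, norm_map' := rotLin_norm j a b c d h } rfl

lemma rotIso_apply (j a b c d : ℝ) (h : j * (a ^ 2 + b ^ 2 + c ^ 2 + d ^ 2) ≠ 0) (v : E3) :
    rotIso j a b c d h v = rotLin j a b c d v := rfl

lemma copy_of_act (z : Finset ℕ × (ℕ × ℕ × ℕ × ℕ)) (hk : 1 ≤ key z) (o x y p : Fin 3 → ℤ)
    (s : Finset E3) (hs : s = {pt (key z) p, pt (key z) (p + act z x), pt (key z) (p + act z y)}) :
    IsCopy ![pt 1 o, pt 1 (o + x), pt 1 (o + y)] s := by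
  classical
  have hkr : ((∏ p ∈ z.1, p : ℕ) : ℝ) * ((z.2.1:ℝ) ^ 2 + (z.2.2.1:ℝ) ^ 2 + (z.2.2.2.1:ℝ) ^ 2 +
      (z.2.2.2.2:ℝ) ^ 2) = ((key z : ℕ) : ℝ) := by
    unfold key N4; push_cast; ring
  have hk0 : ((key z : ℕ) : ℝ) ≠ 0 := by
    have : (0:ℝ) < key z := by exact_mod_cast hk
    exact this.ne'
  have h0 : ((∏ p ∈ z.1, p : ℕ) : ℝ) * ((z.2.1:ℝ) ^ 2 + (z.2.2.1:ℝ) ^ 2 + (z.2.2.2.1:ℝ) ^ 2 +
      (z.2.2.2.2:ℝ) ^ 2) ≠ 0 := by rw [hkr]; exact hk0
  let R := rotIso _ _ _ _ _ h0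
  have hR : ∀ w : Fin 3 → ℤ, R (pt 1 w) = pt (key z) (act z w) := by
    intro w
    simp only [R]
    rw [rotIso_apply]
    ext i
    fin_cases i <;>
    · simp [rotLin, pt, act, rot, hkr]
      rw [← hkr]
      push_cast
      ring
  have hpt : ∀ (k : ℝ) (u w : Fin 3 → ℤ), pt k (u + w) = pt k u + pt k w := by
    intro k u w
    ext i
    simp [pt, add_div]
  let f : E3 ≃ᵢ E3 := ((IsometryEquiv.subRight (pt 1 o)).trans R.toIsometryEquiv).trans
    (IsometryEquiv.addRight (pt (key z) p))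
  have hf : ∀ v, f v = R (v - pt 1 o) + pt (key z) p := fun v => rfl
  refine ⟨f, ?_⟩
  have hrange : Set.range (![pt 1 o, pt 1 (o + x), pt 1 (o + y)] : Fin 3 → E3) =
      {pt 1 o, pt 1 (o + x), pt 1 (o + y)} := by
    simp [Matrix.range_cons, Matrix.range_empty, Set.insert_def]
    ext v
    simp [or_comm, or_assoc, or_left_comm]
  rw [hrange, Set.image_insert_eq, Set.image_pair, hf, hf, hf, hs]
  have e1 : R (pt 1 o - pt 1 o) + pt (key z) p = pt (key z) p := by simp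
  have e2 : R (pt 1 (o + x) - pt 1 o) + pt (key z) p = pt (key z) (p + act z x) := by
    rw [hpt 1 o x, add_sub_cancel_left, hR, hpt]; exact add_comm _ _
  have e3 : R (pt 1 (o + y) - pt 1 o) + pt (key z) p = pt (key z) (p + act z y) := by
    rw [hpt 1 o y, add_sub_cancel_left, hR, hpt]; exact add_comm _ _
  rw [e1, e2, e3]
  simp

end Pool.Agent.LibTri
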