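import Mathlib
import Pool.Agent.LibTri.Geom

set_option autoImplicit false

namespace Pool.Agent.LibTri

open Finset

lemma pt_inj {k : ℝ} (hk : k ≠ 0) {u w : Fin 3 → ℤ} (h : pt k u = pt k w) : u = w := by
  funext i
  have := congrArg (fun v : E3 => v i) h
  simp only [pt] at this
  have h2 : (u i : ℝ) = (w i : ℝ) := by
    field_simp at this
    exact this
  exact_mod_cast h2

/-- Integer cube. -/
noncomputable def cube (a b : ℤ) : Finset (Fin 3 → ℤ) := Fintype.piFinset (fun _ => Finset.Ico a b)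

lemma mem_cube {a b : ℤ} {w : Fin 3 → ℤ} : w ∈ cube a b ↔ ∀ i, a ≤ w i ∧ w i < b := by
  simp [cube, Fintype.mem_piFinset]

lemma cube_card (a b : ℤ) : (cube a b).card = (b - a).toNat ^ 3 := by
  simp [cube, Fintype.card_piFinset]

lemma act_bound (z : Finset ℕ × (ℕ × ℕ × ℕ × ℕ)) (x : Fin 3 → ℤ) (ρ : ℕ)
    (hx : x 0 * x 0 + x 1 * x 1 + x 2 * x 2 ≤ (ρ:ℤ) ^ 2) (i : Fin 3) :
    |act z x i| ≤ (key z : ℤ) * ρ := by
  have h := act_inner z x x
  have h2 : act z x i ^ 2 ≤ ((key z : ℤ) * ρ) ^ 2 := by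
    have h3 : act z x i ^ 2 ≤ act z x 0 * act z x 0 + act z x 1 * act z x 1 +
        act z x 2 * act z x 2 := by
      have s0 := sq_nonneg (act z x 0)
      have s1 := sq_nonneg (act z x 1)
      have s2 := sq_nonneg (act z x 2)
      fin_cases i
      · show act z x 0 ^ 2 ≤ _
        nlinarith
      · show act z x 1 ^ 2 ≤ _
        nlinarith
      · show act z x 2 ^ 2 ≤ _
        nlinarith
    rw [h] at h3
    have hk2 : (0:ℤ) ≤ (key z : ℤ) ^ 2 := by positivity
    calc act z x i ^ 2 ≤ (key z : ℤ) ^ 2 * (x 0 * x 0 + x 1 * x 1 + x 2 * x 2) := h3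
      _ ≤ (key z : ℤ) ^ 2 * (ρ:ℤ) ^ 2 := mul_le_mul_of_nonneg_left hx hk2
      _ = ((key z : ℤ) * ρ) ^ 2 := by ring
  exact abs_le_of_sq_le_sq h2 (by positivity)

/-- The main counting lemma. -/
lemma count_copies (S : Finset ℕ) (hS : ∀ p ∈ S, p.Prime ∧ p ≠ 2) (g : ℕ) (k K : ℕ)
    (hk : 1 ≤ k) (hkK : k ≤ K) (o x y : Fin 3 → ℤ) (hn : crs x y ≠ 0) (ρ : ℕ)
    (hx : x 0 * x 0 + x 1 * x 1 + x 2 * x 2 ≤ (ρ:ℤ) ^ 2)
    (hy : y 0 * y 0 + y 1 * y 1 + y 2 * y 2 ≤ (ρ:ℤ) ^ 2) (n : ℕ)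
    (hnn : (4 * K * ρ) ^ 3 ≤ n) :
    ∃ P : Finset E3, P.card = n ∧
      ((idx S g).filter (fun z => key z = k)).card * (2 * K * ρ) ^ 3 ≤
        27 * congCount ![pt 1 o, pt 1 (o + x), pt 1 (o + y)] P := by
  classical
  have hk0 : (k:ℝ) ≠ 0 := by
    have : (0:ℝ) < k := by exact_mod_cast hk
    exact this.ne'
  let P0 : Finset E3 := (cube 0 (4 * K * ρ : ℤ)).image (pt k)
  have hP0 : P0.card ≤ n := by
    refine (Finset.card_image_le).trans ?_
    rw [cube_card]
    have : ((4 * K * ρ : ℤ) - 0).toNat = 4 * K * ρ := by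
      have : (4 * K * ρ : ℤ) - 0 = ((4 * K * ρ : ℕ) : ℤ) := by push_cast; ring
      rw [this, Int.toNat_natCast]
    rw [this]; exact hnn
  obtain ⟨P, hPsub, hPcard⟩ := Infinite.exists_superset_card_eq P0 n hP0
  refine ⟨P, hPcard, ?_⟩
  refine le_trans ?_ (Nat.mul_le_mul_left 27 (congCount_mono hPsub))
  set Q := (idx S g).filter (fun z => key z = k) with hQ
  let I : Finset (Fin 3 → ℤ) := cube (K * ρ : ℤ) (3 * K * ρ : ℤ)
  have hI : I.card = (2 * K * ρ) ^ 3 := by
    simp only [I]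
    rw [cube_card]
    have : ((3 * K * ρ : ℤ) - K * ρ).toNat = 2 * K * ρ := by
      have : (3 * K * ρ : ℤ) - K * ρ = ((2 * K * ρ : ℕ) : ℤ) := by push_cast; ring
      rw [this, Int.toNat_natCast]
    rw [this]
  rw [← hI, ← Finset.card_product]
  let Φ : (Finset ℕ × (ℕ × ℕ × ℕ × ℕ)) × (Fin 3 → ℤ) → Finset E3 := fun w =>
    {pt k w.2, pt k (w.2 + act w.1 x), pt k (w.2 + act w.1 y)}
  have hfib : ∀ s ∈ (Q ×ˢ I).image Φ, ((Q ×ˢ I).filter (fun w => Φ w = s)).card ≤ 27 := by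
    intro s hs
    have hscard : s.card ≤ 3 := by
      obtain ⟨w, _, rfl⟩ := Finset.mem_image.mp hs
      exact Finset.card_le_three
    have h27 : (s ×ˢ (s ×ˢ s)).card ≤ 27 := by
      rw [Finset.card_product, Finset.card_product]
      calc s.card * (s.card * s.card) ≤ 3 * (3 * 3) := by gcongr
        _ = 27 := by norm_num
    refine le_trans ?_ h27
    refine Finset.card_le_card_of_injOn
      (fun w => (pt k w.2, pt k (w.2 + act w.1 x), pt k (w.2 + act w.1 y))) ?_ ?_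
    · intro w hw
      rw [Finset.mem_coe, Finset.mem_filter] at hw
      rw [Finset.mem_coe, Finset.mem_product, Finset.mem_product, ← hw.2]
      refine ⟨?_, ?_, ?_⟩ <;> simp [Φ]
    · intro w hw w' hw' h
      rw [Finset.mem_coe, Finset.mem_filter, Finset.mem_product, hQ, Finset.mem_filter] at hw hw'
      simp only [Prod.mk.injEq] at h
      obtain ⟨e1, e2, e3⟩ := h
      have f1 := pt_inj hk0 e1
      have f2 := pt_inj hk0 e2
      have f3 := pt_inj hk0 e3
      rw [f1] at f2 f3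
      have g2 : act w.1 x = act w'.1 x := add_left_cancel f2
      have g3 : act w.1 y = act w'.1 y := add_left_cancel f3
      have := act_inj hS hw.1.1.1 hw'.1.1.1 (by rw [hw.1.1.2, hw'.1.1.2]) x y hn g2 g3
      exact Prod.ext this f1
  have hmul := Finset.card_le_mul_card_image (Q ×ˢ I) 27 hfib
  refine hmul.trans (Nat.mul_le_mul_left 27 ?_)
  unfold congCount
  apply Finset.card_le_card
  intro s hs
  obtain ⟨w, hw, rfl⟩ := Finset.mem_image.mp hs
  rw [Finset.mem_product] at hw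
  obtain ⟨hwQ, hwI⟩ := hw
  rw [hQ, Finset.mem_filter] at hwQ
  have hwk : key w.1 = k := hwQ.2
  rw [Finset.mem_filter, Finset.mem_powerset]
  constructor
  · have hcube : ∀ v : Fin 3 → ℤ, (v 0 * v 0 + v 1 * v 1 + v 2 * v 2 ≤ (ρ:ℤ) ^ 2) →
        pt k (w.2 + act w.1 v) ∈ P0 := by
      intro v hv
      apply Finset.mem_image_of_mem
      rw [mem_cube]
      intro i
      have h1 := act_bound w.1 v ρ hv i
      rw [hwk] at h1
      have h2 := (mem_cube.mp hwI) i
      have h3 : (k:ℤ) * ρ ≤ K * ρ := by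
        have : (k:ℤ) ≤ K := by exact_mod_cast hkK
        exact mul_le_mul_of_nonneg_right this (by positivity)
      rw [abs_le] at h1
      have h4 : (3 * K * ρ : ℤ) = 3 * (K * ρ) := by ring
      have h5 : (4 * K * ρ : ℤ) = 4 * (K * ρ) := by ring
      rw [h4] at h2
      rw [h5]
      simp only [Pi.add_apply]
      constructor <;> linarith [h1.1, h1.2, h2.1, h2.2]
    intro v hv
    simp only [Φ, Finset.mem_insert, Finset.mem_singleton] at hv
    rcases hv with rfl | rfl | rfl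
    · apply Finset.mem_image_of_mem
      rw [mem_cube]
      intro i
      have h2 := (mem_cube.mp hwI) i
      have h4 : (3 * K * ρ : ℤ) = 3 * (K * ρ) := by ring
      have h5 : (4 * K * ρ : ℤ) = 4 * (K * ρ) := by ring
      have h6 : (0:ℤ) ≤ K * ρ := by positivity
      rw [h4] at h2
      rw [h5]
      constructor <;> linarith [h2.1, h2.2]
    · exact hcube x hx
    · exact hcube y hy
  · apply copy_of_act w.1 (by rw [hwk]; exact hk) o x y w.2
    rw [hwk]

end Pool.Agent.LibTri
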